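import Mathlib
import Pool.Agent.R32.Draw

/-!
# A planar (2,2)-sparse graph without an L-contact representation

The graph has 22 vertices: a vertex `v`, five triples `a i, b i, c i` such that `v, a i, b i, c i`
are pairwise adjacent, and a vertex `u` joined to every `a i` by a path `u, w i, a i`.

The endpoints of `v` are used in at most two of the five copies of `K₄`. In each of the other three
copies every endpoint of `a i, b i, c i` is used, so the extreme points of the representation of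
this copy are the endpoints of `v`, and the copy lies in the quadrant spanned by the two arms of `v`.
The highest and the rightmost shape among `a i, b i, c i` form together a staircase that cuts off
the bend of `v` from the two endpoints of `v`. The three staircases are nested, and the middle
one separates the other two copies, which contradicts the connection through `u`.
-/

set_option autoImplicit false

namespace Pool.Agent.Results.MP_d36e69_co.SparseNotLContact

/-- An L-shape (of any of the four orientations): the horizontal segment from the bend `(cx, cy)` to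
`(hx, cy)` together with the vertical segment from the bend `(cx, cy)` to `(cx, vy)`, both of
positive length. -/
structure LShape where
  /-- first coordinate of the bend -/
  cx : ℝ
  /-- second coordinate of the bend -/
  cy : ℝ
  /-- first coordinate of the endpoint of the horizontal segment -/
  hx : ℝ
  /-- second coordinate of the endpoint of the vertical segment -/
  vy : ℝ
  /-- the horizontal segment has positive length -/
  hx_ne : hx ≠ cx
  /-- the vertical segment has positive length -/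
  vy_ne : vy ≠ cy

/-- The set of points of an L-shape. -/
def LShape.carrier (M : LShape) : Set (ℝ × ℝ) :=
  segment ℝ (M.cx, M.cy) (M.hx, M.cy) ∪ segment ℝ (M.cx, M.cy) (M.cx, M.vy)

/-- The two endpoints of an L-shape. -/
def LShape.ends (M : LShape) : Set (ℝ × ℝ) := {(M.hx, M.cy), (M.cx, M.vy)}

/-- The bend of an L-shape. -/
def LShape.bend (M : LShape) : ℝ × ℝ := (M.cx, M.cy)

/-- `M` makes contact with `N` at `p`: `p` is an endpoint of `M` and a point of `N` that is neither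
an endpoint nor the bend of `N`. -/
def TouchesAt (p : ℝ × ℝ) (M N : LShape) : Prop :=
  p ∈ M.ends ∧ p ∈ N.carrier ∧ p ∉ N.ends ∧ p ≠ N.bend

/-- `G` is an L-contact graph: there are L-shapes `L v` such that every common point of two of them
is a contact point (an endpoint of one of them which is a point of the other one that is neither an
endpoint nor the bend of the latter), and two of them make contact if and only if the
vertices are adjacent. -/
def IsLContactGraph {V : Type*} (G : SimpleGraph V) : Prop :=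
  ∃ L : V → LShape,
    (∀ u v, u ≠ v → ∀ p, p ∈ (L u).carrier → p ∈ (L v).carrier →
      TouchesAt p (L u) (L v) ∨ TouchesAt p (L v) (L u)) ∧
    ∀ u v, u ≠ v → (G.Adj u v ↔ ∃ p, TouchesAt p (L u) (L v) ∨ TouchesAt p (L v) (L u))

/-- The condition `(∗)`: every nonempty set `W` of vertices spans at most `2 |W| - 2` edges. -/
def Sparse22 {V : Type*} (G : SimpleGraph V) : Prop :=
  ∀ W : Finset V, W.Nonempty → {e ∈ G.edgeSet | ∀ v ∈ e, v ∈ W}.ncard ≤ 2 * W.card - 2

/-- `p` is a straight-line crossing-free drawing of `G`: the vertices go to pairwise distinct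
points, the closed segment of an edge contains no vertex other than the ends of the edge, and the
segments of two different edges meet at most in (the image of) a common end. -/
def IsDrawing {V : Type*} (G : SimpleGraph V) (p : V → ℝ × ℝ) : Prop :=
  Function.Injective p ∧
  (∀ u v w : V, G.Adj u v → p w ∈ segment ℝ (p u) (p v) → w = u ∨ w = v) ∧
  (∀ u v x y : V, G.Adj u v → G.Adj x y → s(u, v) ≠ s(x, y) →
    ∀ q, q ∈ segment ℝ (p u) (p v) → q ∈ segment ℝ (p x) (p y) →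
      ∃ w, (w = u ∨ w = v) ∧ (w = x ∨ w = y) ∧ q = p w)

/-- `G` is planar: it has a straight-line crossing-free drawing in the plane. -/
def IsPlanar {V : Type*} (G : SimpleGraph V) : Prop := ∃ p : V → ℝ × ℝ, IsDrawing G p

/-! ### Coordinates -/

/-- closed betweenness -/
def Cl (a b x : ℝ) : Prop := (a ≤ x ∧ x ≤ b) ∨ (b ≤ x ∧ x ≤ a)

/-- strict betweenness -/
def Btw (a b x : ℝ) : Prop := (a < x ∧ x < b) ∨ (b < x ∧ x < a)

/-- membership in coordinates -/
def Mem (p : ℝ × ℝ) (M : LShape) : Prop :=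
  (p.2 = M.cy ∧ Cl M.cx M.hx p.1) ∨ (p.1 = M.cx ∧ Cl M.cy M.vy p.2)

/-- being an inner point of one of the arms -/
def Inn (p : ℝ × ℝ) (M : LShape) : Prop :=
  (p.2 = M.cy ∧ Btw M.cx M.hx p.1) ∨ (p.1 = M.cx ∧ Btw M.cy M.vy p.2)

/-- the two endpoints: `true` for the horizontal arm, `false` for the vertical arm -/
def LShape.endp (M : LShape) (k : Bool) : ℝ × ℝ := if k then (M.hx, M.cy) else (M.cx, M.vy)

theorem endp_true (M : LShape) : M.endp true = (M.hx, M.cy) := rfl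

theorem endp_false (M : LShape) : M.endp false = (M.cx, M.vy) := rfl

theorem mem_seg {a b x : ℝ} : x ∈ segment ℝ a b ↔ Cl a b x := by
  rw [segment_eq_uIcc, Set.mem_uIcc]
  rfl

theorem mem_carrier {M : LShape} {p : ℝ × ℝ} : p ∈ M.carrier ↔ Mem p M := by
  obtain ⟨x, y⟩ := p
  rw [LShape.carrier, Set.mem_union, ← Prod.image_mk_segment_right, ← Prod.image_mk_segment_left]
  simp only [Set.mem_image, mem_seg, Prod.mk.injEq, Mem]
  constructor
  · rintro (⟨z, hz, rfl, rfl⟩ | ⟨z, hz, rfl, rfl⟩)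
    · exact Or.inl ⟨rfl, hz⟩
    · exact Or.inr ⟨rfl, hz⟩
  · rintro (⟨h, hz⟩ | ⟨h, hz⟩)
    · exact Or.inl ⟨x, hz, rfl, h.symm⟩
    · exact Or.inr ⟨y, hz, h.symm, rfl⟩

theorem mem_ends {M : LShape} {p : ℝ × ℝ} : p ∈ M.ends ↔ ∃ k, p = M.endp k := by
  simp only [LShape.ends, Set.mem_insert_iff, Set.mem_singleton_iff]
  constructor
  · rintro (h | h)
    · exact ⟨true, h⟩
    · exact ⟨false, h⟩
  · rintro ⟨k, h⟩
    cases k
    · exact Or.inr h
    · exact Or.inl h

theorem inn_iff {M : LShape} {p : ℝ × ℝ} :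
    Inn p M ↔ p ∈ M.carrier ∧ p ∉ M.ends ∧ p ≠ M.bend := by
  rw [mem_carrier]
  obtain ⟨x, y⟩ := p
  have h1 := M.hx_ne
  have h2 := M.vy_ne
  simp only [Inn, Mem, LShape.ends, LShape.bend, Set.mem_insert_iff, Set.mem_singleton_iff,
    Prod.mk.injEq, not_or, Btw, Cl, ne_eq]
  constructor
  · rintro (⟨rfl, h⟩ | ⟨rfl, h⟩)
    · refine ⟨Or.inl ⟨rfl, ?_⟩, ⟨?_, ?_⟩, ?_⟩
      · rcases h with h | h
        · exact Or.inl ⟨h.1.le, h.2.le⟩
        · exact Or.inr ⟨h.1.le, h.2.le⟩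
      · rintro ⟨rfl, -⟩
        rcases h with h | h
        · exact absurd h.2 (lt_irrefl _)
        · exact absurd h.1 (lt_irrefl _)
      · rintro ⟨-, h3⟩
        exact h2 h3.symm
      · rintro ⟨rfl, -⟩
        rcases h with h | h
        · exact absurd h.1 (lt_irrefl _)
        · exact absurd h.2 (lt_irrefl _)
    · refine ⟨Or.inr ⟨rfl, ?_⟩, ⟨?_, ?_⟩, ?_⟩
      · rcases h with h | h
        · exact Or.inl ⟨h.1.le, h.2.le⟩
        · exact Or.inr ⟨h.1.le, h.2.le⟩
      · rintro ⟨h3, -⟩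
        exact h1 h3.symm
      · rintro ⟨-, rfl⟩
        rcases h with h | h
        · exact absurd h.2 (lt_irrefl _)
        · exact absurd h.1 (lt_irrefl _)
      · rintro ⟨-, rfl⟩
        rcases h with h | h
        · exact absurd h.1 (lt_irrefl _)
        · exact absurd h.2 (lt_irrefl _)
  · rintro ⟨⟨rfl, h⟩ | ⟨rfl, h⟩, ⟨h3, h4⟩, h5⟩
    · left
      refine ⟨rfl, ?_⟩
      have e1 : x ≠ M.hx := fun e => h3 ⟨e, rfl⟩
      have e2 : x ≠ M.cx := fun e => h5 ⟨e, rfl⟩
      rcases h with h | h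
      · exact Or.inl ⟨lt_of_le_of_ne h.1 (Ne.symm e2), lt_of_le_of_ne h.2 e1⟩
      · exact Or.inr ⟨lt_of_le_of_ne h.1 (Ne.symm e1), lt_of_le_of_ne h.2 e2⟩
    · right
      refine ⟨rfl, ?_⟩
      have e1 : y ≠ M.vy := fun e => h4 ⟨rfl, e⟩
      have e2 : y ≠ M.cy := fun e => h5 ⟨rfl, e⟩
      rcases h with h | h
      · exact Or.inl ⟨lt_of_le_of_ne h.1 (Ne.symm e2), lt_of_le_of_ne h.2 e1⟩
      · exact Or.inr ⟨lt_of_le_of_ne h.1 (Ne.symm e1), lt_of_le_of_ne h.2 e2⟩

theorem touches_iff {p : ℝ × ℝ} {M N : LShape} :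
    TouchesAt p M N ↔ (∃ k, p = M.endp k) ∧ Inn p N := by
  rw [TouchesAt, inn_iff, mem_ends]

theorem not_inn_self (M : LShape) (k : Bool) : ¬ Inn (M.endp k) M := by
  intro h
  exact (inn_iff.1 h).2.1 (mem_ends.2 ⟨k, rfl⟩)

theorem Inn.mem {p : ℝ × ℝ} {M : LShape} (h : Inn p M) : Mem p M := mem_carrier.1 (inn_iff.1 h).1

theorem mem_endp (M : LShape) (k : Bool) : Mem (M.endp k) M := by
  cases k
  · refine Or.inr ⟨rfl, ?_⟩
    rcases le_total M.cy M.vy with h | h
    · exact Or.inl ⟨h, le_rfl⟩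
    · exact Or.inr ⟨le_rfl, h⟩
  · refine Or.inl ⟨rfl, ?_⟩
    rcases le_total M.cx M.hx with h | h
    · exact Or.inl ⟨h, le_rfl⟩
    · exact Or.inr ⟨le_rfl, h⟩

section Family

variable {V : Type*}

/-- endpoint `k` of `u` is an inner point of `v` -/
def On (L : V → LShape) (u : V) (k : Bool) (v : V) : Prop := Inn ((L u).endp k) (L v)

/-- an endpoint of `u` is an inner point of `v` -/
def Con (L : V → LShape) (u v : V) : Prop := ∃ k, On L u k v

/-- non-crossing family -/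
def NC (L : V → LShape) : Prop :=
  ∀ u v, u ≠ v → ∀ p, Mem p (L u) → Mem p (L v) →
    (∃ k, p = (L u).endp k ∧ On L u k v) ∨ (∃ k, p = (L v).endp k ∧ On L v k u)

/-- representation of the relation `adj` -/
def Rep (adj : V → V → Prop) (L : V → LShape) : Prop :=
  NC L ∧ ∀ u v, u ≠ v → (adj u v ↔ Con L u v ∨ Con L v u)

theorem rep_of {G : SimpleGraph V} {L : V → LShape}
    (h1 : ∀ u v, u ≠ v → ∀ p, p ∈ (L u).carrier → p ∈ (L v).carrier →
      TouchesAt p (L u) (L v) ∨ TouchesAt p (L v) (L u))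
    (h2 : ∀ u v, u ≠ v → (G.Adj u v ↔ ∃ p, TouchesAt p (L u) (L v) ∨ TouchesAt p (L v) (L u))) :
    Rep G.Adj L := by
  constructor
  · intro u v huv p hp hq
    rcases h1 u v huv p (mem_carrier.2 hp) (mem_carrier.2 hq) with h | h
    · rw [touches_iff] at h
      obtain ⟨⟨k, rfl⟩, h⟩ := h
      exact Or.inl ⟨k, rfl, h⟩
    · rw [touches_iff] at h
      obtain ⟨⟨k, rfl⟩, h⟩ := h
      exact Or.inr ⟨k, rfl, h⟩
  · intro u v huv
    rw [h2 u v huv]
    constructor
    · rintro ⟨p, h | h⟩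
      · rw [touches_iff] at h
        obtain ⟨⟨k, rfl⟩, h⟩ := h
        exact Or.inl ⟨k, h⟩
      · rw [touches_iff] at h
        obtain ⟨⟨k, rfl⟩, h⟩ := h
        exact Or.inr ⟨k, h⟩
    · rintro (⟨k, h⟩ | ⟨k, h⟩)
      · exact ⟨_, Or.inl (touches_iff.2 ⟨⟨k, rfl⟩, h⟩)⟩
      · exact ⟨_, Or.inr (touches_iff.2 ⟨⟨k, rfl⟩, h⟩)⟩

/-- exchange of the coordinates -/
def LShape.swap (M : LShape) : LShape := ⟨M.cy, M.cx, M.vy, M.hx, M.vy_ne, M.hx_ne⟩

/-- reflection in the first axis -/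
def LShape.neg (M : LShape) : LShape := ⟨M.cx, -M.cy, M.hx, -M.vy, M.hx_ne, by
  intro h
  exact M.vy_ne (neg_injective h)⟩

theorem mem_swap {M : LShape} {p : ℝ × ℝ} : Mem p M.swap ↔ Mem (p.2, p.1) M := by
  simp only [Mem, LShape.swap]
  tauto

theorem inn_swap {M : LShape} {p : ℝ × ℝ} : Inn p M.swap ↔ Inn (p.2, p.1) M := by
  simp only [Inn, LShape.swap]
  tauto

theorem cl_neg {a b x : ℝ} : Cl (-a) (-b) x ↔ Cl a b (-x) := by
  simp only [Cl]
  constructor
  · rintro (⟨h1, h2⟩ | ⟨h1, h2⟩)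
    · exact Or.inr ⟨by linarith, by linarith⟩
    · exact Or.inl ⟨by linarith, by linarith⟩
  · rintro (⟨h1, h2⟩ | ⟨h1, h2⟩)
    · exact Or.inr ⟨by linarith, by linarith⟩
    · exact Or.inl ⟨by linarith, by linarith⟩

theorem btw_neg {a b x : ℝ} : Btw (-a) (-b) x ↔ Btw a b (-x) := by
  simp only [Btw]
  constructor
  · rintro (⟨h1, h2⟩ | ⟨h1, h2⟩)
    · exact Or.inr ⟨by linarith, by linarith⟩
    · exact Or.inl ⟨by linarith, by linarith⟩
  · rintro (⟨h1, h2⟩ | ⟨h1, h2⟩)
    · exact Or.inr ⟨by linarith, by linarith⟩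
    · exact Or.inl ⟨by linarith, by linarith⟩

theorem mem_neg {M : LShape} {p : ℝ × ℝ} : Mem p M.neg ↔ Mem (p.1, -p.2) M := by
  simp only [Mem, LShape.neg, cl_neg]
  constructor
  · rintro (⟨h1, h2⟩ | ⟨h1, h2⟩)
    · exact Or.inl ⟨by rw [h1, neg_neg], h2⟩
    · exact Or.inr ⟨h1, h2⟩
  · rintro (⟨h1, h2⟩ | ⟨h1, h2⟩)
    · exact Or.inl ⟨by rw [← h1, neg_neg], h2⟩
    · exact Or.inr ⟨h1, h2⟩

theorem inn_neg {M : LShape} {p : ℝ × ℝ} : Inn p M.neg ↔ Inn (p.1, -p.2) M := by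
  simp only [Inn, LShape.neg, btw_neg]
  constructor
  · rintro (⟨h1, h2⟩ | ⟨h1, h2⟩)
    · exact Or.inl ⟨by rw [h1, neg_neg], h2⟩
    · exact Or.inr ⟨h1, h2⟩
  · rintro (⟨h1, h2⟩ | ⟨h1, h2⟩)
    · exact Or.inl ⟨by rw [← h1, neg_neg], h2⟩
    · exact Or.inr ⟨h1, h2⟩

theorem endp_swap (M : LShape) (k : Bool) :
    M.swap.endp k = ((M.endp (!k)).2, (M.endp (!k)).1) := by
  cases k <;> rfl

theorem endp_neg (M : LShape) (k : Bool) :
    M.neg.endp k = ((M.endp k).1, -(M.endp k).2) := by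
  cases k <;> rfl

theorem on_swap {L : V → LShape} {u v : V} {k : Bool} :
    On (fun w => (L w).swap) u k v ↔ On L u (!k) v := by
  simp only [On, endp_swap, inn_swap]

theorem on_neg {L : V → LShape} {u v : V} {k : Bool} :
    On (fun w => (L w).neg) u k v ↔ On L u k v := by
  simp only [On, endp_neg, inn_neg, neg_neg]

theorem con_swap {L : V → LShape} {u v : V} : Con (fun w => (L w).swap) u v ↔ Con L u v := by
  simp only [Con, on_swap]
  constructor
  · rintro ⟨k, h⟩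
    exact ⟨!k, h⟩
  · rintro ⟨k, h⟩
    exact ⟨!k, by simpa using h⟩

theorem con_neg {L : V → LShape} {u v : V} : Con (fun w => (L w).neg) u v ↔ Con L u v := by
  simp only [Con, on_neg]

theorem nc_swap {L : V → LShape} (h : NC L) : NC (fun w => (L w).swap) := by
  intro u v huv p h1 h2
  simp only [mem_swap] at h1 h2
  have key : ∀ M : LShape, ∀ k, (p.2, p.1) = M.endp k → p = M.swap.endp (!k) := by
    intro M k hk
    rw [endp_swap, Bool.not_not, ← hk]
  rcases h u v huv _ h1 h2 with ⟨k, hk, ho⟩ | ⟨k, hk, ho⟩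
  · exact Or.inl ⟨!k, key _ k hk, on_swap.2 (by rw [Bool.not_not]; exact ho)⟩
  · exact Or.inr ⟨!k, key _ k hk, on_swap.2 (by rw [Bool.not_not]; exact ho)⟩

theorem nc_neg {L : V → LShape} (h : NC L) : NC (fun w => (L w).neg) := by
  intro u v huv p h1 h2
  simp only [mem_neg] at h1 h2
  have key : ∀ M : LShape, ∀ k, (p.1, -p.2) = M.endp k → p = M.neg.endp k := by
    intro M k hk
    rw [endp_neg, ← hk, neg_neg]
  rcases h u v huv _ h1 h2 with ⟨k, hk, ho⟩ | ⟨k, hk, ho⟩
  · exact Or.inl ⟨k, key _ k hk, on_neg.2 ho⟩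
  · exact Or.inr ⟨k, key _ k hk, on_neg.2 ho⟩

theorem rep_swap {adj : V → V → Prop} {L : V → LShape} (h : Rep adj L) :
    Rep adj (fun w => (L w).swap) :=
  ⟨nc_swap h.1, fun u v huv => by rw [con_swap, con_swap]; exact h.2 u v huv⟩

theorem rep_neg {adj : V → V → Prop} {L : V → LShape} (h : Rep adj L) :
    Rep adj (fun w => (L w).neg) :=
  ⟨nc_neg h.1, fun u v huv => by rw [con_neg, con_neg]; exact h.2 u v huv⟩

theorem uniq {L : V → LShape} (h : NC L) {u v w : V} {k : Bool} (h1 : On L u k v)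
    (h2 : On L u k w) : v = w := by
  by_contra hne
  rcases h v w hne _ h1.mem h2.mem with ⟨j, hj, -⟩ | ⟨j, hj, -⟩
  · rw [On, hj] at h1
    exact not_inn_self _ _ h1
  · rw [On, hj] at h2
    exact not_inn_self _ _ h2

/-- Two vertical arms on the same line do not overlap. -/
theorem no_overlap {L : V → LShape} (h : NC L) {u v : V} (huv : u ≠ v)
    (hc : (L u).cx = (L v).cx) {a b : ℝ} (hab : a < b)
    (hu : ∀ y, a < y → y < b → Cl (L u).cy (L u).vy y)
    (hv : ∀ y, a < y → y < b → Cl (L v).cy (L v).vy y) : False := by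
  obtain ⟨y, ⟨hy1, hy2⟩, hy3⟩ := (Set.Ioo_infinite hab).exists_notMem_finset
    {(L u).cy, (L u).vy, (L v).cy, (L v).vy}
  simp only [Finset.mem_insert, Finset.mem_singleton, not_or] at hy3
  obtain ⟨n1, n2, n3, n4⟩ := hy3
  rcases h u v huv ((L u).cx, y) (Or.inr ⟨rfl, hu y hy1 hy2⟩) (Or.inr ⟨hc, hv y hy1 hy2⟩) with
    ⟨k, hk, -⟩ | ⟨k, hk, -⟩
  · cases k
    · exact n2 (congrArg Prod.snd hk)
    · exact n1 (congrArg Prod.snd hk)
  · cases k
    · exact n4 (congrArg Prod.snd hk)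
    · exact n3 (congrArg Prod.snd hk)

theorem endvert {L : V → LShape} (h : NC L) {u v : V} (huv : u ≠ v)
    (hc : (L u).cx = (L v).cx) (hb : Btw (L v).cy (L v).vy (L u).vy) : False := by
  rcases lt_or_gt_of_ne (L u).vy_ne with hlt | hlt
  · -- `vy < cy`: the arm extends upwards from `vy`
    rcases hb with ⟨b1, b2⟩ | ⟨b1, b2⟩
    · refine no_overlap h huv hc (a := (L u).vy) (b := min (L u).cy (L v).vy)
        (lt_min hlt b2) ?_ ?_
      · intro y h1 h2
        exact Or.inr ⟨h1.le, (h2.trans_le (min_le_left _ _)).le⟩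
      · intro y h1 h2
        exact Or.inl ⟨(b1.trans h1).le, (h2.trans_le (min_le_right _ _)).le⟩
    · refine no_overlap h huv hc (a := (L u).vy) (b := min (L u).cy (L v).cy)
        (lt_min hlt b2) ?_ ?_
      · intro y h1 h2
        exact Or.inr ⟨h1.le, (h2.trans_le (min_le_left _ _)).le⟩
      · intro y h1 h2
        exact Or.inr ⟨(b1.trans h1).le, (h2.trans_le (min_le_right _ _)).le⟩
  · rcases hb with ⟨b1, b2⟩ | ⟨b1, b2⟩
    · refine no_overlap h huv hc (a := max (L u).cy (L v).cy) (b := (L u).vy)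
        (max_lt hlt b1) ?_ ?_
      · intro y h1 h2
        exact Or.inl ⟨((le_max_left _ _).trans_lt h1).le, h2.le⟩
      · intro y h1 h2
        exact Or.inl ⟨((le_max_right _ _).trans_lt h1).le, (h2.trans b2).le⟩
    · refine no_overlap h huv hc (a := max (L u).cy (L v).vy) (b := (L u).vy)
        (max_lt hlt b1) ?_ ?_
      · intro y h1 h2
        exact Or.inl ⟨((le_max_left _ _).trans_lt h1).le, h2.le⟩
      · intro y h1 h2
        exact Or.inr ⟨((le_max_right _ _).trans_lt h1).le, (h2.trans b2).le⟩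

theorem endhor {L : V → LShape} (h : NC L) {u v : V} (huv : u ≠ v)
    (hc : (L u).cy = (L v).cy) (hb : Btw (L v).cx (L v).hx (L u).hx) : False :=
  endvert (nc_swap h) huv hc hb

/-- The highest points of a finite family contain a free endpoint. -/
theorem top {L : V → LShape} (h : NC L) (S : Finset V) (hS : S.Nonempty) :
    ∃ u ∈ S, ∃ k, (∀ v ∈ S, (L v).cy ≤ ((L u).endp k).2 ∧ (L v).vy ≤ ((L u).endp k).2) ∧
      ∀ v ∈ S, ¬ On L u k v := by
  obtain ⟨u0, hu0, hmax⟩ := S.exists_max_image (fun v => max (L v).cy (L v).vy) hS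
  set Y := max (L u0).cy (L u0).vy with hY
  have hle : ∀ v ∈ S, (L v).cy ≤ Y ∧ (L v).vy ≤ Y := fun v hv =>
    ⟨(le_max_left _ _).trans (hmax v hv), (le_max_right _ _).trans (hmax v hv)⟩
  by_cases hc : ∃ u ∈ S, (L u).cy = Y
  · obtain ⟨u, hu, hcu⟩ := hc
    refine ⟨u, hu, true, ?_, ?_⟩
    · intro v hv
      rw [endp_true]
      show _ ≤ (L u).cy ∧ _ ≤ (L u).cy
      rw [hcu]
      exact hle v hv
    · intro v hv hon
      by_cases huv : u = v
      · subst huv
        exact not_inn_self _ _ hon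
      · rcases hon with ⟨h1, h2⟩ | ⟨h1, h2⟩
        · exact endhor h huv h1 h2
        · have h3 := hle v hv
          rw [endp_true] at h2
          have h2' : Btw (L v).cy (L v).vy (L u).cy := h2
          rw [hcu] at h2'
          rcases h2' with ⟨a, b⟩ | ⟨a, b⟩ <;> linarith [h3.1, h3.2]
  · push Not at hc
    have hvy : (L u0).vy = Y := by
      rcases max_choice (L u0).cy (L u0).vy with h1 | h1
      · exact absurd h1.symm (hc u0 hu0)
      · exact h1.symm
    refine ⟨u0, hu0, false, ?_, ?_⟩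
    · intro v hv
      rw [endp_false]
      show _ ≤ (L u0).vy ∧ _ ≤ (L u0).vy
      rw [hvy]
      exact hle v hv
    · intro v hv hon
      rcases hon with ⟨h1, h2⟩ | ⟨h1, h2⟩
      · have h1' : (L u0).vy = (L v).cy := h1
        exact hc v hv (by rw [← h1', hvy])
      · have h3 := hle v hv
        have h2' : Btw (L v).cy (L v).vy (L u0).vy := h2
        rw [hvy] at h2'
        rcases h2' with ⟨a, b⟩ | ⟨a, b⟩ <;> linarith [h3.1, h3.2]

theorem bottom {L : V → LShape} (h : NC L) (S : Finset V) (hS : S.Nonempty) :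
    ∃ u ∈ S, ∃ k, (∀ v ∈ S, ((L u).endp k).2 ≤ (L v).cy ∧ ((L u).endp k).2 ≤ (L v).vy) ∧
      ∀ v ∈ S, ¬ On L u k v := by
  obtain ⟨u, hu, k, h1, h2⟩ := top (nc_neg h) S hS
  refine ⟨u, hu, k, ?_, ?_⟩
  · intro v hv
    obtain ⟨a, b⟩ := h1 v hv
    rw [endp_neg] at a b
    have a' : -(L v).cy ≤ -((L u).endp k).2 := a
    have b' : -(L v).vy ≤ -((L u).endp k).2 := b
    exact ⟨by linarith, by linarith⟩
  · intro v hv hon
    exact h2 v hv (on_neg.2 hon)

theorem right {L : V → LShape} (h : NC L) (S : Finset V) (hS : S.Nonempty) :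
    ∃ u ∈ S, ∃ k, (∀ v ∈ S, (L v).cx ≤ ((L u).endp k).1 ∧ (L v).hx ≤ ((L u).endp k).1) ∧
      ∀ v ∈ S, ¬ On L u k v := by
  obtain ⟨u, hu, k, h1, h2⟩ := top (nc_swap h) S hS
  refine ⟨u, hu, !k, ?_, ?_⟩
  · intro v hv
    obtain ⟨a, b⟩ := h1 v hv
    rw [endp_swap] at a b
    exact ⟨a, b⟩
  · intro v hv hon
    exact h2 v hv (on_swap.2 hon)

theorem left {L : V → LShape} (h : NC L) (S : Finset V) (hS : S.Nonempty) :
    ∃ u ∈ S, ∃ k, (∀ v ∈ S, ((L u).endp k).1 ≤ (L v).cx ∧ ((L u).endp k).1 ≤ (L v).hx) ∧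
      ∀ v ∈ S, ¬ On L u k v := by
  obtain ⟨u, hu, k, h1, h2⟩ := bottom (nc_swap h) S hS
  refine ⟨u, hu, !k, ?_, ?_⟩
  · intro v hv
    obtain ⟨a, b⟩ := h1 v hv
    rw [endp_swap] at a b
    exact ⟨a, b⟩
  · intro v hv hon
    exact h2 v hv (on_swap.2 hon)

/-- the staircase formed by two shapes `p`, `q` attached to the arms of `v` -/
structure Stair (v p q : LShape) : Prop where
  p1 : p.hx = v.cx
  p2 : v.cx < p.cx
  p3 : p.vy < p.cy
  p4 : p.cy < v.vy
  q1 : q.vy = v.cy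
  q2 : v.cy < q.cy
  q3 : q.hx < q.cx
  q4 : q.cx < v.hx
  c1 : q.hx ≤ p.cx
  c2 : p.cx < q.cx
  c3 : p.vy ≤ q.cy
  c4 : q.cy < p.cy

theorem Stair.swap {v p q : LShape} (h : Stair v p q) : Stair v.swap q.swap p.swap :=
  ⟨h.q1, h.q2, h.q3, h.q4, h.p1, h.p2, h.p3, h.p4, h.c3, h.c4, h.c1, h.c2⟩

/-- the region cut off by the staircase -/
def Reg (v p q : LShape) (z : ℝ × ℝ) : Prop :=
  v.cx ≤ z.1 ∧ v.cy ≤ z.2 ∧ ((z.1 < p.cx ∧ z.2 < p.cy) ∨ (z.1 < q.cx ∧ z.2 < q.cy))

theorem reg_swap {v p q : LShape} {z : ℝ × ℝ} :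
    Reg v.swap q.swap p.swap (z.2, z.1) ↔ Reg v p q z := by
  simp only [Reg, LShape.swap]
  tauto

/-- the quadrant of `v` -/
def Quad (v N : LShape) : Prop := v.cx ≤ N.cx ∧ v.cx ≤ N.hx ∧ v.cy ≤ N.cy ∧ v.cy ≤ N.vy

/-- horizontal segments do not leave the region -/
theorem hor {v p q N : LShape} (hs : Stair v p q) (hp : ∀ z, Mem z N → ¬ Mem z p)
    (hq : ∀ z, Mem z N → ¬ Mem z q) (hv : Quad v N ∨ ∀ z, Mem z N → ¬ Mem z v)
    {x1 x2 : ℝ} (h1 : Cl N.cx N.hx x1) (h2 : Cl N.cx N.hx x2) (hr : Reg v p q (x1, N.cy)) :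
    Reg v p q (x2, N.cy) := by
  have hmem : ∀ x, Cl x1 x2 x → Mem (x, N.cy) N := by
    intro x hx
    refine Or.inl ⟨rfl, ?_⟩
    simp only [Cl] at *
    rcases hx with ⟨a, b⟩ | ⟨a, b⟩ <;> rcases h1 with ⟨c, d⟩ | ⟨c, d⟩ <;>
      rcases h2 with ⟨e, f⟩ | ⟨e, f⟩
    all_goals first
      | exact Or.inl ⟨by linarith, by linarith⟩
      | exact Or.inr ⟨by linarith, by linarith⟩
  obtain ⟨r1, r2, r3⟩ := hr
  simp only at r1 r2 r3
  have s1 := hs.c4
  have s2 := hs.p4
  have s3 := hs.c2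
  have s4 := hs.q1
  have s5 := hs.c3
  have hy : N.cy < p.cy := by
    rcases r3 with r3 | r3
    · exact r3.2
    · linarith [r3.2]
  have hleft : v.cx ≤ x2 := by
    by_contra hcon
    push Not at hcon
    rcases hv with hv | hv
    · obtain ⟨a, b, -, -⟩ := hv
      rcases h2 with ⟨e, f⟩ | ⟨e, f⟩ <;> linarith
    · refine hv (v.cx, N.cy) (hmem v.cx (Or.inr ⟨hcon.le, r1⟩)) ?_
      exact Or.inr ⟨rfl, Or.inl ⟨r2, by show N.cy ≤ v.vy; linarith⟩⟩
  refine ⟨hleft, r2, ?_⟩
  by_cases hcase : N.cy < q.cy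
  · right
    refine ⟨?_, hcase⟩
    by_contra hcon
    have hcon' : q.cx ≤ x2 := not_lt.1 hcon
    have hx1 : x1 < q.cx := by
      rcases r3 with r3 | r3
      · linarith [r3.1]
      · exact r3.1
    refine hq (q.cx, N.cy) (hmem q.cx (Or.inl ⟨hx1.le, hcon'⟩)) ?_
    exact Or.inr ⟨rfl, Or.inr ⟨by show q.vy ≤ N.cy; linarith, hcase.le⟩⟩
  · left
    refine ⟨?_, hy⟩
    by_contra hcon
    have hcon' : p.cx ≤ x2 := not_lt.1 hcon
    have hcase' : q.cy ≤ N.cy := not_lt.1 hcase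
    have hx1 : x1 < p.cx := by
      rcases r3 with r3 | r3
      · exact r3.1
      · exact absurd r3.2 hcase
    refine hp (p.cx, N.cy) (hmem p.cx (Or.inl ⟨hx1.le, hcon'⟩)) ?_
    exact Or.inr ⟨rfl, Or.inr ⟨by show p.vy ≤ N.cy; linarith, hy.le⟩⟩

theorem cl_left (a b : ℝ) : Cl a b a := by
  rcases le_total a b with h | h
  · exact Or.inl ⟨le_rfl, h⟩
  · exact Or.inr ⟨h, le_rfl⟩

/-- a shape that avoids the staircase lies inside or outside of the region -/
theorem side {v p q N : LShape} (hs : Stair v p q) (hp : ∀ z, Mem z N → ¬ Mem z p)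
    (hq : ∀ z, Mem z N → ¬ Mem z q) (hv : Quad v N ∨ ∀ z, Mem z N → ¬ Mem z v)
    {z1 z2 : ℝ × ℝ} (h1 : Mem z1 N) (h2 : Mem z2 N) (hr : Reg v p q z1) : Reg v p q z2 := by
  have hp' : ∀ z, Mem z N.swap → ¬ Mem z p.swap := fun z hz hz' =>
    hp _ (mem_swap.1 hz) (mem_swap.1 hz')
  have hq' : ∀ z, Mem z N.swap → ¬ Mem z q.swap := fun z hz hz' =>
    hq _ (mem_swap.1 hz) (mem_swap.1 hz')
  have hv' : Quad v.swap N.swap ∨ ∀ z, Mem z N.swap → ¬ Mem z v.swap := by
    rcases hv with hv | hv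
    · exact Or.inl ⟨hv.2.2.1, hv.2.2.2, hv.1, hv.2.1⟩
    · exact Or.inr fun z hz hz' => hv _ (mem_swap.1 hz) (mem_swap.1 hz')
  have vert : ∀ y1 y2, Cl N.cy N.vy y1 → Cl N.cy N.vy y2 → Reg v p q (N.cx, y1) →
      Reg v p q (N.cx, y2) := by
    intro y1 y2 a b c
    have c' : Reg v.swap q.swap p.swap (y1, N.swap.cy) := reg_swap.2 c
    exact reg_swap.1 (hor hs.swap hq' hp' hv' a b c')
  -- the bend
  have hb : Reg v p q (N.cx, N.cy) := by
    obtain ⟨a, b⟩ := z1
    rcases h1 with ⟨e, c⟩ | ⟨e, c⟩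
    · have e' : b = N.cy := e
      subst e'
      exact hor hs hp hq hv c (cl_left _ _) hr
    · have e' : a = N.cx := e
      subst e'
      exact vert _ _ c (cl_left _ _) hr
  obtain ⟨a, b⟩ := z2
  rcases h2 with ⟨e, c⟩ | ⟨e, c⟩
  · have e' : b = N.cy := e
    subst e'
    exact hor hs hp hq hv (cl_left _ _) c hb
  · have e' : a = N.cx := e
    subst e'
    exact vert _ _ (cl_left _ _) c hb

/-- A copy of `K₄` in which no endpoint of `v` is used. -/
theorem block [DecidableEq V] {L : V → LShape} (h : NC L) {v a b c : V} (hva : v ≠ a)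
    (hvb : v ≠ b) (hvc : v ≠ c) (hab : a ≠ b) (hac : a ≠ c) (hbc : b ≠ c)
    (hor1 : (L v).cx < (L v).hx) (hor2 : (L v).cy < (L v).vy)
    (ca : Con L a v) (cb : Con L b v) (cc : Con L c v)
    (cab : Con L a b ∨ Con L b a) (cac : Con L a c ∨ Con L c a) (cbc : Con L b c ∨ Con L c b) :
    ∃ p ∈ ({a, b, c} : Finset V), ∃ q ∈ ({a, b, c} : Finset V), Stair (L v) (L p) (L q) ∧
      ∀ x ∈ ({a, b, c} : Finset V), Quad (L v) (L x) := by
  -- the endpoint that is not on `v`
  have other : ∀ x y, Con L x v → Con L x y → v ≠ y →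
      ∃ k, On L x k v ∧ On L x (!k) y := by
    rintro x y ⟨k, hk⟩ ⟨j, hj⟩ hvy
    refine ⟨k, hk, ?_⟩
    have : j = !k := by
      by_contra hne
      have : j = k := by
        cases j <;> cases k <;> simp_all
      subst this
      exact hvy (uniq h hk hj)
    rw [← this]
    exact hj
  have two : ∀ x y z, Con L x v → v ≠ y → v ≠ z → Con L x y → Con L x z → y = z := by
    rintro x y z hx hy hz h1 h2
    obtain ⟨k, k1, k2⟩ := other x y hx h1 hy
    obtain ⟨j, j1, j2⟩ := other x z hx h2 hz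
    by_cases hkj : k = j
    · subst hkj
      exact uniq h k2 j2
    · exfalso
      have : j = !k := by cases j <;> cases k <;> simp_all
      subst this
      exact hy (uniq h j1 k2)
  have hR : ∀ x ∈ ({a, b, c} : Finset V), ∃ k, On L x k v ∧
      ∃ y ∈ ({a, b, c} : Finset V), On L x (!k) y := by
    have t1 := two a b c ca hvb hvc
    have t2 := two b a c cb hva hvc
    have t3 := two c a b cc hva hvb
    have hcyc : (Con L a b ∧ Con L b c ∧ Con L c a) ∨ (Con L a c ∧ Con L c b ∧ Con L b a) := by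
      tauto
    intro x hx
    simp only [Finset.mem_insert, Finset.mem_singleton] at hx
    rcases hcyc with ⟨e1, e2, e3⟩ | ⟨e1, e2, e3⟩ <;> rcases hx with rfl | rfl | rfl
    · obtain ⟨k, k1, k2⟩ := other _ _ ca e1 hvb
      exact ⟨k, k1, b, by simp, k2⟩
    · obtain ⟨k, k1, k2⟩ := other _ _ cb e2 hvc
      exact ⟨k, k1, c, by simp, k2⟩
    · obtain ⟨k, k1, k2⟩ := other _ _ cc e3 hva
      exact ⟨k, k1, a, by simp, k2⟩
    · obtain ⟨k, k1, k2⟩ := other _ _ ca e1 hvc
      exact ⟨k, k1, c, by simp, k2⟩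
    · obtain ⟨k, k1, k2⟩ := other _ _ cb e3 hva
      exact ⟨k, k1, a, by simp, k2⟩
    · obtain ⟨k, k1, k2⟩ := other _ _ cc e2 hvb
      exact ⟨k, k1, b, by simp, k2⟩
  obtain ⟨S', hS'⟩ : ∃ S' : Finset V, S' = {a, b, c} := ⟨_, rfl⟩
  rw [← hS'] at hR ⊢
  have hvS' : v ∉ S' := by
    rw [hS']
    simp [hva, hvb, hvc]
  have hne' : S'.Nonempty := ⟨a, by rw [hS']; simp⟩
  -- all endpoints of the three shapes are used
  have hU : ∀ x ∈ S', ∀ k, ∃ y ∈ insert v S', On L x k y := by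
    intro x hx k
    obtain ⟨j, j1, y, hy, j2⟩ := hR x hx
    by_cases hkj : k = j
    · subst hkj
      exact ⟨v, Finset.mem_insert_self _ _, j1⟩
    · have : k = !j := by cases j <;> cases k <;> simp_all
      subst this
      exact ⟨y, Finset.mem_insert_of_mem hy, j2⟩
  have hUv : ∀ x ∈ S', ∀ k, (∀ y ∈ S', ¬ On L x k y) → On L x k v := by
    intro x hx k hno
    obtain ⟨y, hy, hy2⟩ := hU x hx k
    rcases Finset.mem_insert.1 hy with rfl | hy
    · exact hy2
    · exact absurd hy2 (hno y hy)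
  -- the quadrant
  have hquad : ∀ x ∈ S', Quad (L v) (L x) := by
    have hneS : (insert v S').Nonempty := ⟨v, Finset.mem_insert_self _ _⟩
    obtain ⟨u, hu, k, hk1, hk2⟩ := bottom h (insert v S') hneS
    obtain ⟨u', hu', k', hk1', hk2'⟩ := left h (insert v S') hneS
    have huv : u = v := by
      rcases Finset.mem_insert.1 hu with e | hu
      · exact e
      · obtain ⟨y, hy, hy2⟩ := hU u hu k
        exact absurd hy2 (hk2 y hy)
    have huv' : u' = v := by
      rcases Finset.mem_insert.1 hu' with e | hu'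
      · exact e
      · obtain ⟨y, hy, hy2⟩ := hU u' hu' k'
        exact absurd hy2 (hk2' y hy)
    subst huv
    subst huv'
    have e1 : ((L u').endp k).2 = (L u').cy := by
      cases k
      · have := (hk1 u' (Finset.mem_insert_self _ _)).1
        have this' : (L u').vy ≤ (L u').cy := this
        linarith
      · rfl
    have e2 : ((L u').endp k').1 = (L u').cx := by
      cases k'
      · rfl
      · have := (hk1' u' (Finset.mem_insert_self _ _)).1
        have this' : (L u').hx ≤ (L u').cx := this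
        linarith
    intro x hx
    have f1 := hk1 x (Finset.mem_insert_of_mem hx)
    have f2 := hk1' x (Finset.mem_insert_of_mem hx)
    rw [e1] at f1
    rw [e2] at f2
    exact ⟨f2.1, f2.2, f1.1, f1.2⟩
  -- the highest shape
  obtain ⟨p, hp, kp, hp1, hp2⟩ := top h S' hne'
  have hpv : On L p kp v := hUv p hp kp hp2
  have hpne : p ≠ v := fun e => hvS' (e ▸ hp)
  have hpq := hquad p hp
  have hP : kp = true ∧ (L p).hx = (L v).cx ∧ (L v).cx < (L p).cx ∧ (L p).vy < (L p).cy ∧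
      (L p).cy < (L v).vy := by
    have hself := hp1 p hp
    rcases hpv with ⟨e1, e2⟩ | ⟨e1, e2⟩
    · exfalso
      rw [e1] at hself
      exact (L p).vy_ne (le_antisymm (by linarith [hself.2, hpq.2.2.1]) (by
        linarith [hself.1, hpq.2.2.2]))
    · cases kp
      · exact absurd (endvert h hpne e1 e2) id
      · have e1' : (L p).hx = (L v).cx := e1
        have e2' : Btw (L v).cy (L v).vy (L p).cy := e2
        have h1 : (L p).vy ≤ (L p).cy := hself.2
        have h2 : (L v).cx < (L p).cx := by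
          refine lt_of_le_of_ne hpq.1 ?_
          rw [← e1']
          exact (L p).hx_ne
        refine ⟨rfl, e1', h2, lt_of_le_of_ne h1 (L p).vy_ne, ?_⟩
        rcases e2' with ⟨g1, g2⟩ | ⟨g1, g2⟩
        · exact g2
        · linarith
  -- the rightmost shape
  obtain ⟨q, hq, kq, hq1, hq2⟩ := right h S' hne'
  have hqv : On L q kq v := hUv q hq kq hq2
  have hqne : q ≠ v := fun e => hvS' (e ▸ hq)
  have hqq := hquad q hq
  have hQ : kq = false ∧ (L q).vy = (L v).cy ∧ (L v).cy < (L q).cy ∧ (L q).hx < (L q).cx ∧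
      (L q).cx < (L v).hx := by
    have hself := hq1 q hq
    rcases hqv with ⟨e1, e2⟩ | ⟨e1, e2⟩
    · cases kq
      · have e1' : (L q).vy = (L v).cy := e1
        have e2' : Btw (L v).cx (L v).hx (L q).cx := e2
        have h1 : (L q).hx ≤ (L q).cx := hself.2
        have h2 : (L v).cy < (L q).cy := by
          refine lt_of_le_of_ne hqq.2.2.1 ?_
          rw [← e1']
          exact (L q).vy_ne
        refine ⟨rfl, e1', h2, lt_of_le_of_ne h1 (L q).hx_ne, ?_⟩
        rcases e2' with ⟨g1, g2⟩ | ⟨g1, g2⟩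
        · exact g2
        · linarith
      · exact absurd (endhor h hqne e1 e2) id
    · exfalso
      rw [e1] at hself
      exact (L q).hx_ne (le_antisymm (by linarith [hself.2, hqq.1]) (by
        linarith [hself.1, hqq.2.1]))
  obtain ⟨rfl, p1, p2, p3, p4⟩ := hP
  obtain ⟨rfl, q1, q2, q3, q4⟩ := hQ
  have hpq_ne : p ≠ q := by
    rintro rfl
    obtain ⟨k, k1, y, hy, k2⟩ := hR p hp
    have : v = y := by
      cases k
      · exact uniq h hpv k2
      · exact uniq h hqv k2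
    exact hvS' (this ▸ hy)
  have hcon : Con L p q ∨ Con L q p := by
    rw [hS'] at hp hq
    simp only [Finset.mem_insert, Finset.mem_singleton] at hp hq
    rcases hp with rfl | rfl | rfl <;> rcases hq with rfl | rfl | rfl <;> tauto
  have hvq : v ≠ q := Ne.symm hqne
  have hvp : v ≠ p := Ne.symm hpne
  refine ⟨p, hp, q, hq, ?_, hquad⟩
  rcases hcon with ⟨k, hk⟩ | ⟨k, hk⟩
  · cases k
    · rcases hk with ⟨e1, e2⟩ | ⟨e1, e2⟩
      · have e1' : (L p).vy = (L q).cy := e1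
        have e2' : Btw (L q).cx (L q).hx (L p).cx := e2
        have e3 : (L q).hx < (L p).cx ∧ (L p).cx < (L q).cx := by
          rcases e2' with ⟨g1, g2⟩ | ⟨g1, g2⟩
          · exfalso; linarith
          · exact ⟨g1, g2⟩
        exact ⟨p1, p2, p3, p4, q1, q2, q3, q4, e3.1.le, e3.2, e1'.le, by linarith⟩
      · exact absurd (endvert h hpq_ne e1 e2) id
    · exact absurd (uniq h hpv hk) hvq
  · cases k
    · exact absurd (uniq h hqv hk) hvp
    · rcases hk with ⟨e1, e2⟩ | ⟨e1, e2⟩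
      · exact absurd (endhor h hpq_ne.symm e1 e2) id
      · have e1' : (L q).hx = (L p).cx := e1
        have e2' : Btw (L p).cy (L p).vy (L q).cy := e2
        have e3 : (L p).vy < (L q).cy ∧ (L q).cy < (L p).cy := by
          rcases e2' with ⟨g1, g2⟩ | ⟨g1, g2⟩
          · exfalso; linarith
          · exact ⟨g1, g2⟩
        exact ⟨p1, p2, p3, p4, q1, q2, q3, q4, e1'.le, by linarith, e3.1.le, e3.2⟩

end Family

/-! ### Sparsity from two forests -/

theorem forest_card {n : ℕ} (p : Fin n → Fin n) (r : Fin n → ℕ)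
    (h : ∀ x, p x ≠ x → r (p x) < r x) (W : Finset (Fin n)) (hW : W.Nonempty) :
    (W.filter fun x => p x ≠ x ∧ p x ∈ W).card ≤ W.card - 1 := by
  obtain ⟨m, hm, hmin⟩ := W.exists_min_image r hW
  have : (W.filter fun x => p x ≠ x ∧ p x ∈ W) ⊆ W.erase m := by
    intro x hx
    rw [Finset.mem_filter] at hx
    refine Finset.mem_erase.2 ⟨?_, hx.1⟩
    rintro rfl
    exact absurd (hmin _ hx.2.2) (not_le.2 (h x hx.2.1))
  calc _ ≤ (W.erase m).card := Finset.card_le_card this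
    _ = W.card - 1 := Finset.card_erase_of_mem hm

theorem sparse_of_forests {n : ℕ} (G : SimpleGraph (Fin n)) (p1 p2 : Fin n → Fin n)
    (r1 r2 : Fin n → ℕ) (h1 : ∀ x, p1 x ≠ x → r1 (p1 x) < r1 x)
    (h2 : ∀ x, p2 x ≠ x → r2 (p2 x) < r2 x)
    (hcov : ∀ u v, G.Adj u v → p1 u = v ∨ p1 v = u ∨ p2 u = v ∨ p2 v = u) : Sparse22 G := by
  classical
  intro W hW
  have hsub : {e ∈ G.edgeSet | ∀ v ∈ e, v ∈ W} ⊆
      (((W.filter fun x => p1 x ≠ x ∧ p1 x ∈ W).image (fun x => s(x, p1 x)) ∪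
        (W.filter fun x => p2 x ≠ x ∧ p2 x ∈ W).image (fun x => s(x, p2 x)) :
          Finset (Sym2 (Fin n))) : Set (Sym2 (Fin n))) := by
    rintro e ⟨he, hW'⟩
    induction e with
    | _ u v =>
      have hu : u ∈ W := hW' u (by simp)
      have hv : v ∈ W := hW' v (by simp)
      have huv : G.Adj u v := he
      rw [Finset.mem_coe, Finset.mem_union, Finset.mem_image, Finset.mem_image]
      rcases hcov u v huv with rfl | rfl | rfl | rfl
      · exact Or.inl ⟨u, Finset.mem_filter.2 ⟨hu, huv.ne', hv⟩, rfl⟩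
      · exact Or.inl ⟨v, Finset.mem_filter.2 ⟨hv, huv.ne, hu⟩, Sym2.eq_swap⟩
      · exact Or.inr ⟨u, Finset.mem_filter.2 ⟨hu, huv.ne', hv⟩, rfl⟩
      · exact Or.inr ⟨v, Finset.mem_filter.2 ⟨hv, huv.ne, hu⟩, Sym2.eq_swap⟩
  have h3 := Set.ncard_le_ncard hsub (Finset.finite_toSet _)
  rw [Set.ncard_coe_finset] at h3
  have h4 := Finset.card_union_le
    ((W.filter fun x => p1 x ≠ x ∧ p1 x ∈ W).image (fun x => s(x, p1 x)))
    ((W.filter fun x => p2 x ≠ x ∧ p2 x ∈ W).image (fun x => s(x, p2 x)))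
  have h5 := Finset.card_image_le (s := W.filter fun x => p1 x ≠ x ∧ p1 x ∈ W)
    (f := fun x => s(x, p1 x))
  have h6 := Finset.card_image_le (s := W.filter fun x => p2 x ≠ x ∧ p2 x ∈ W)
    (f := fun x => s(x, p2 x))
  have h7 := forest_card p1 r1 h1 W hW
  have h8 := forest_card p2 r2 h2 W hW
  omega

/-! ### The graph -/

/-- the edges: `v = 0`, `a i = 3 i + 1`, `b i = 3 i + 2`, `c i = 3 i + 3`, `w i = 16 + i`, `u = 21`
(`i = 0, …, 4`) -/
def E : List (Fin 22 × Fin 22) :=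
  [(0, 1), (0, 2), (0, 3), (1, 2), (1, 3), (2, 3), (1, 16), (16, 21), (0, 4), (0, 5), (0, 6),
    (4, 5), (4, 6), (5, 6), (4, 17), (17, 21), (0, 7), (0, 8), (0, 9), (7, 8), (7, 9), (8, 9),
    (7, 18), (18, 21), (0, 10), (0, 11), (0, 12), (10, 11), (10, 12), (11, 12), (10, 19),
    (19, 21), (0, 13), (0, 14), (0, 15), (13, 14), (13, 15), (14, 15), (13, 20), (20, 21)]

/-- the graph with 22 vertices and 40 edges -/
def G22 : SimpleGraph (Fin 22) where
  Adj u v := (u, v) ∈ E ∨ (v, u) ∈ E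
  symm := ⟨fun _ _ h => h.symm⟩
  loopless := ⟨by decide +kernel⟩

instance : DecidableRel G22.Adj := fun u v =>
  inferInstanceAs (Decidable ((u, v) ∈ E ∨ (v, u) ∈ E))

/-- coordinates of a drawing -/
def coord : Fin 22 → ℤ × ℤ :=
  ![(0, 0), (-60, 60), (-45, 60), (-35, 40), (-30, 63), (-15, 63), (-15, 42), (0, 66), (15, 66),
    (5, 44), (30, 69), (45, 69), (25, 46), (60, 72), (75, 72), (45, 48), (-59, 90), (-29, 91),
    (1, 92), (31, 93), (61, 94), (7, 300)]

theorem planar : IsPlanar G22 := by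
  refine ⟨fun v => Pool.Agent.R32.toR (coord v), ?_⟩
  refine Pool.Agent.R32.isDrawing_of_check G22 E coord (fun u v h => h) ?_ ?_ ?_
  · decide +kernel
  · decide +kernel
  · decide +kernel

/-- first forest -/
def par1 : Fin 22 → Fin 22 :=
  ![0, 0, 1, 2, 0, 4, 5, 0, 7, 8, 0, 10, 11, 0, 13, 14, 1, 4, 7, 10, 13, 21]

/-- second forest -/
def par2 : Fin 22 → Fin 22 :=
  ![0, 3, 0, 0, 6, 0, 0, 9, 0, 0, 12, 0, 0, 15, 0, 0, 21, 21, 21, 21, 21, 21]

/-- ranks of the first forest -/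
def rk1 : Fin 22 → ℕ :=
  ![0, 1, 2, 3, 1, 2, 3, 1, 2, 3, 1, 2, 3, 1, 2, 3, 2, 2, 2, 2, 2, 0]

/-- ranks of the second forest -/
def rk2 : Fin 22 → ℕ :=
  ![0, 2, 1, 1, 2, 1, 1, 2, 1, 1, 2, 1, 1, 2, 1, 1, 1, 1, 1, 1, 1, 0]

theorem sparse : Sparse22 G22 :=
  sparse_of_forests G22 par1 par2 rk1 rk2 (by decide +kernel) (by decide +kernel)
    (by decide +kernel)

/-- the vertices `a i`, `b i`, `c i` -/
def t (i : Fin 5) (m : Fin 3) : Fin 22 := ⟨1 + 3 * i.val + m.val, by omega⟩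

/-- the vertices `w i` -/
def w (i : Fin 5) : Fin 22 := ⟨16 + i.val, by omega⟩

theorem adj0 : ∀ i m, G22.Adj 0 (t i m) := by decide +kernel

theorem adjt : ∀ i m m', m ≠ m' → G22.Adj (t i m) (t i m') := by decide +kernel

theorem adjw : ∀ i, G22.Adj (t i 0) (w i) ∧ G22.Adj (w i) 21 := by decide +kernel

theorem nadj_t : ∀ i j m m', i ≠ j → ¬ G22.Adj (t i m) (t j m') ∧ t i m ≠ t j m' := by
  decide +kernel

theorem nadj_w : ∀ i j m, i ≠ j → ¬ G22.Adj (w i) (t j m) ∧ w i ≠ t j m := by decide +kernel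

theorem nadj_w0 : ∀ i, ¬ G22.Adj (w i) 0 ∧ w i ≠ 0 := by decide +kernel

theorem nadj_u : (∀ j m, ¬ G22.Adj 21 (t j m) ∧ 21 ≠ t j m) ∧ ¬ G22.Adj 21 0 ∧
    (21 : Fin 22) ≠ 0 := by decide +kernel

theorem t_ne0 : ∀ i m, (0 : Fin 22) ≠ t i m := by decide +kernel

theorem t_inj : ∀ i m m', m ≠ m' → t i m ≠ t i m' := by decide +kernel

section Contra

variable {L : Fin 22 → LShape}

theorem disj (h : Rep G22.Adj L) {a b : Fin 22} (hab : ¬ G22.Adj a b ∧ a ≠ b) :
    ∀ z, Mem z (L a) → ¬ Mem z (L b) := by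
  intro z h1 h2
  apply hab.1
  rw [h.2 a b hab.2]
  rcases h.1 a b hab.2 z h1 h2 with ⟨k, -, hk⟩ | ⟨k, -, hk⟩
  · exact Or.inl ⟨k, hk⟩
  · exact Or.inr ⟨k, hk⟩

theorem share (h : Rep G22.Adj L) {a b : Fin 22} (hab : G22.Adj a b) :
    ∃ z, Mem z (L a) ∧ Mem z (L b) := by
  rcases (h.2 a b hab.ne).1 hab with ⟨k, hk⟩ | ⟨k, hk⟩
  · exact ⟨_, mem_endp _ k, hk.mem⟩
  · exact ⟨_, hk.mem, mem_endp _ k⟩

/-- three nested staircases -/
theorem sep3 (h : Rep G22.Adj L) {i j l : Fin 5} (hij : i ≠ j) (hjl : j ≠ l)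
    {pi pj pl qi qj ql : Fin 3}
    (si : Stair (L 0) (L (t i pi)) (L (t i qi))) (sj : Stair (L 0) (L (t j pj)) (L (t j qj)))
    (sl : Stair (L 0) (L (t l pl)) (L (t l ql)))
    (Qi : ∀ m, Quad (L 0) (L (t i m))) (Ql : ∀ m, Quad (L 0) (L (t l m)))
    (h1 : (L (t i pi)).cy < (L (t j pj)).cy) (h2 : (L (t j pj)).cy < (L (t l pl)).cy) :
    False := by
  have step : ∀ a b : Fin 22, (∀ z, Mem z (L a) → Reg (L 0) (L (t j pj)) (L (t j qj)) z) →
      (a = b ∨ G22.Adj a b) → (∀ m, ¬ G22.Adj b (t j m) ∧ b ≠ t j m) →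
      (Quad (L 0) (L b) ∨ (¬ G22.Adj b 0 ∧ b ≠ 0)) →
      (∀ z, Mem z (L b) → Reg (L 0) (L (t j pj)) (L (t j qj)) z) := by
    intro a b ha hab hd hq z hz
    rcases hab with rfl | hab
    · exact ha z hz
    · obtain ⟨z0, z1, z2⟩ := share h hab
      refine side sj (disj h (hd pj)) (disj h (hd qj)) ?_ z2 hz (ha z0 z1)
      rcases hq with hq | hq
      · exact Or.inl hq
      · exact Or.inr (disj h hq)
  have tt : ∀ i m m', t i m = t i m' ∨ G22.Adj (t i m) (t i m') := by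
    intro i m m'
    by_cases hm : m = m'
    · exact Or.inl (by rw [hm])
    · exact Or.inr (adjt i m m' hm)
  -- the start
  have s0 : ∀ z, Mem z (L (t i pi)) → Reg (L 0) (L (t j pj)) (L (t j qj)) z := by
    intro z hz
    have hm : Mem ((L (t i pi)).hx, (L (t i pi)).cy) (L (t i pi)) := mem_endp _ true
    refine side sj (disj h (nadj_t i j _ _ hij)) (disj h (nadj_t i j _ _ hij))
      (Or.inl (Qi pi)) hm hz ?_
    have e1 := si.p1
    have e2 := si.q2
    have e3 := si.c4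
    have e4 := sj.p2
    refine ⟨?_, ?_, Or.inl ⟨?_, ?_⟩⟩
    · show (L 0).cx ≤ (L (t i pi)).hx
      rw [e1]
    · show (L 0).cy ≤ (L (t i pi)).cy
      linarith
    · show (L (t i pi)).hx < (L (t j pj)).cx
      rw [e1]; exact e4
    · exact h1
  have s1 := step (t i pi) (t i 0) s0 (tt i pi 0) (fun m => nadj_t i j _ _ hij) (Or.inl (Qi 0))
  have s2 := step (t i 0) (w i) s1 (Or.inr (adjw i).1) (fun m => nadj_w i j m hij)
    (Or.inr (nadj_w0 i))
  have s3 := step (w i) 21 s2 (Or.inr (adjw i).2) (fun m => nadj_u.1 j m) (Or.inr nadj_u.2)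
  have s4 := step 21 (w l) s3 (Or.inr (adjw l).2.symm) (fun m => nadj_w l j m hjl.symm)
    (Or.inr (nadj_w0 l))
  have s5 := step (w l) (t l 0) s4 (Or.inr (adjw l).1.symm) (fun m => nadj_t l j _ _ hjl.symm)
    (Or.inl (Ql 0))
  have s6 := step (t l 0) (t l pl) s5 (tt l 0 pl) (fun m => nadj_t l j _ _ hjl.symm)
    (Or.inl (Ql pl))
  have s7 := s6 ((L (t l pl)).hx, (L (t l pl)).cy) (mem_endp _ true)
  obtain ⟨-, -, s8 | s8⟩ := s7
  · have : (L (t l pl)).cy < (L (t j pj)).cy := s8.2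
    linarith
  · have h3 : (L (t l pl)).cy < (L (t j qj)).cy := s8.2
    have h4 := sj.c4
    linarith

theorem oriented (h : Rep G22.Adj L) (o1 : (L 0).cx < (L 0).hx) (o2 : (L 0).cy < (L 0).vy) :
    False := by
  classical
  -- bad copies use an endpoint of `0`
  have hbad : ∀ i j l : Fin 5, i ≠ j → i ≠ l → j ≠ l → (∃ m, Con L 0 (t i m)) →
      (∃ m, Con L 0 (t j m)) → (∃ m, Con L 0 (t l m)) → False := by
    rintro i j l hij hil hjl ⟨m1, k1, e1⟩ ⟨m2, k2, e2⟩ ⟨m3, k3, e3⟩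
    have : k1 = k2 ∨ k1 = k3 ∨ k2 = k3 := by
      cases k1 <;> cases k2 <;> cases k3 <;> simp
    rcases this with rfl | rfl | rfl
    · exact (nadj_t i j m1 m2 hij).2 (uniq h.1 e1 e2)
    · exact (nadj_t i l m1 m3 hil).2 (uniq h.1 e1 e3)
    · exact (nadj_t j l m2 m3 hjl).2 (uniq h.1 e2 e3)
  have hgood : ∀ i : Fin 5, (¬ ∃ m, Con L 0 (t i m)) → ∃ p q : Fin 3,
      Stair (L 0) (L (t i p)) (L (t i q)) ∧ ∀ m, Quad (L 0) (L (t i m)) := by
    intro i hi
    push Not at hi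
    have c0 : ∀ m, Con L (t i m) 0 := by
      intro m
      rcases (h.2 0 (t i m) (t_ne0 i m)).1 (adj0 i m) with hc | hc
      · exact absurd hc (hi m)
      · exact hc
    have cc : ∀ m m', m ≠ m' → Con L (t i m) (t i m') ∨ Con L (t i m') (t i m) := by
      intro m m' hm
      exact (h.2 _ _ (t_inj i m m' hm)).1 (adjt i m m' hm)
    obtain ⟨p, hp, q, hq, hs, hQ⟩ := block h.1 (t_ne0 i 0) (t_ne0 i 1) (t_ne0 i 2)
      (t_inj i 0 1 (by decide)) (t_inj i 0 2 (by decide)) (t_inj i 1 2 (by decide)) o1 o2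
      (c0 0) (c0 1) (c0 2) (cc 0 1 (by decide)) (cc 0 2 (by decide)) (cc 1 2 (by decide))
    have hmem : ∀ x ∈ ({t i 0, t i 1, t i 2} : Finset (Fin 22)), ∃ m, x = t i m := by
      intro x hx
      simp only [Finset.mem_insert, Finset.mem_singleton] at hx
      rcases hx with rfl | rfl | rfl
      · exact ⟨0, rfl⟩
      · exact ⟨1, rfl⟩
      · exact ⟨2, rfl⟩
    obtain ⟨mp, rfl⟩ := hmem p hp
    obtain ⟨mq, rfl⟩ := hmem q hq
    refine ⟨mp, mq, hs, fun m => hQ _ ?_⟩
    fin_cases m <;> simp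
  -- three good copies
  obtain ⟨i, j, l, hi, hj, hl, hij, hil, hjl⟩ : ∃ i j l : Fin 5, (¬ ∃ m, Con L 0 (t i m)) ∧
      (¬ ∃ m, Con L 0 (t j m)) ∧ (¬ ∃ m, Con L 0 (t l m)) ∧ i ≠ j ∧ i ≠ l ∧ j ≠ l := by
    have hcard : 2 < (Finset.univ.filter fun i : Fin 5 => ¬ ∃ m, Con L 0 (t i m)).card := by
      by_contra hcon
      rw [not_lt] at hcon
      have h3 := Finset.card_filter_add_card_filter_not (s := (Finset.univ : Finset (Fin 5)))
        (fun i : Fin 5 => ∃ m, Con L 0 (t i m))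
      have h4 : 2 < (Finset.univ.filter fun i : Fin 5 => ∃ m, Con L 0 (t i m)).card := by
        have : (Finset.univ : Finset (Fin 5)).card = 5 := by simp
        omega
      obtain ⟨a, ha, b, hb, c, hc, hab, hac, hbc⟩ := Finset.two_lt_card.1 h4
      exact hbad a b c hab hac hbc (Finset.mem_filter.1 ha).2 (Finset.mem_filter.1 hb).2
        (Finset.mem_filter.1 hc).2
    obtain ⟨a, ha, b, hb, c, hc, hab, hac, hbc⟩ := Finset.two_lt_card.1 hcard
    exact ⟨a, b, c, (Finset.mem_filter.1 ha).2, (Finset.mem_filter.1 hb).2,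
      (Finset.mem_filter.1 hc).2, hab, hac, hbc⟩
  obtain ⟨pi, qi, si, Qi⟩ := hgood i hi
  obtain ⟨pj, qj, sj, Qj⟩ := hgood j hj
  obtain ⟨pl, ql, sl, Ql⟩ := hgood l hl
  have hne : ∀ i j : Fin 5, i ≠ j → ∀ p q p' q' : Fin 3,
      Stair (L 0) (L (t i p)) (L (t i q)) → Stair (L 0) (L (t j p')) (L (t j q')) →
      (L (t i p)).cy ≠ (L (t j p')).cy := by
    intro i j hij p q p' q' s1 s2 he
    have m1 : Mem ((L (t i p)).hx, (L (t i p)).cy) (L (t i p)) := mem_endp _ true
    have m2 : Mem ((L (t j p')).hx, (L (t j p')).cy) (L (t j p')) := mem_endp _ true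
    rw [s1.p1, he] at m1
    rw [s2.p1] at m2
    exact disj h (nadj_t i j p p' hij) _ m1 m2
  rcases lt_or_gt_of_ne (hne i j hij _ _ _ _ si sj) with h1 | h1 <;>
    rcases lt_or_gt_of_ne (hne j l hjl _ _ _ _ sj sl) with h2 | h2 <;>
    rcases lt_or_gt_of_ne (hne i l hil _ _ _ _ si sl) with h3 | h3
  · exact sep3 h hij hjl si sj sl Qi Ql h1 h2
  · exact absurd (h1.trans h2) (not_lt.2 (le_of_lt h3))
  · exact sep3 h hil hjl.symm si sl sj Qi Qj h3 h2
  · exact sep3 h hil.symm hij sl si sj Ql Qj h3 h1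
  · exact sep3 h hij.symm hil sj si sl Qj Ql h1 h3
  · exact sep3 h hjl hil.symm sj sl si Qj Qi h2 h3
  · exact absurd (h2.trans h1) (not_lt.2 (le_of_lt h3))
  · exact sep3 h hjl.symm hij.symm sl sj si Ql Qi h2 h1

theorem no_rep (h : Rep G22.Adj L) : False := by
  -- make the vertical arm of `0` point upwards
  have key : ∀ L : Fin 22 → LShape, Rep G22.Adj L → (L 0).cx < (L 0).hx → False := by
    intro L h o1
    rcases lt_or_gt_of_ne (L 0).vy_ne with hlt | hlt
    · refine oriented (L := fun x => (L x).neg) (rep_neg h) o1 ?_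
      show -(L 0).cy < -(L 0).vy
      linarith
    · exact oriented h o1 hlt
  rcases lt_or_gt_of_ne (L 0).hx_ne with hlt | hlt
  · refine key (fun x => (((L x).swap).neg).swap) (rep_swap (rep_neg (rep_swap h))) ?_
    show -(L 0).cx < -(L 0).hx
    linarith
  · exact key L h hlt

end Contra

/-- **Negative answer to Q1.** There is a planar graph (with 22 vertices) that satisfies `(∗)` and
is not an L-contact graph. -/
theorem result : ∃ G : SimpleGraph (Fin 22), IsPlanar G ∧ Sparse22 G ∧ ¬ IsLContactGraph G := by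
  refine ⟨G22, planar, sparse, ?_⟩
  rintro ⟨L, h1, h2⟩
  exact no_rep (rep_of h1 h2)

end Pool.Agent.Results.MP_d36e69_co.SparseNotLContact
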